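import Pool.Agent.TreeGame200.Exact

/-!
# A non-determined set for the full binary game
-/

namespace Pool.Agent.TreeGame200

open Set MeasureTheory MeasureTheory.Measure Filter
open scoped ENNReal NNReal Topology

theorem exists_injective_choice {ι X : Type} (F : ι → Set X)
    (hF : ∀ i, Cardinal.mk ι ≤ Cardinal.mk (F i)) :
    ∃ f : ι → X, Function.Injective f ∧ ∀ i, f i ∈ F i := by
  obtain ⟨r, wo, hr⟩ := Cardinal.exists_ord_eq ι
  have hstep : ∀ (i : ι) (prev : ∀ j, r j i → X), ∃ y ∈ F i, ∀ j (h : r j i), prev j h ≠ y := by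
    intro i prev
    by_contra hcon
    push Not at hcon
    have h1 : F i ⊆ range (fun j : {j // r j i} => prev j.1 j.2) := by
      intro y hy
      obtain ⟨j, hj, hjy⟩ := hcon y hy
      exact ⟨⟨j, hj⟩, hjy⟩
    have h2 : Cardinal.mk (F i) ≤ Cardinal.mk {j // r j i} :=
      (Cardinal.mk_le_mk_of_subset h1).trans Cardinal.mk_range_le
    have h3 : Cardinal.mk {j // r j i} < Cardinal.mk ι := by
      rw [← Ordinal.card_typein]
      exact Cardinal.card_typein_lt i hr
    exact absurd (hF i) (not_le.2 (h2.trans_lt h3))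
  choose G hG1 hG2 using hstep
  let f : ι → X := wo.wf.fix (fun i prev => G i prev)
  have hf : ∀ i, f i = G i (fun j _ => f j) := fun i => wo.wf.fix_eq _ i
  have hne : ∀ i j, r j i → f j ≠ f i := by
    intro i j hji
    rw [hf i]
    exact hG2 i (fun j _ => f j) j hji
  refine ⟨f, ?_, fun i => by rw [hf i]; exact hG1 i _⟩
  intro i j hij
  rcases trichotomous_of r i j with h | h | h
  · exact absurd hij (hne j i h)
  · exact h
  · exact absurd hij.symm (hne i j h)

/-- sequences by recursion on the past -/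
theorem rec_seq (f : ℕ → List Bool → Bool) : ∃ x : Seq, ∀ n, x n = f n (rp x n) := by
  let g : ℕ → List Bool := fun n => Nat.rec [] (fun n p => f n p :: p) n
  obtain ⟨x, hx⟩ : ∃ x : Seq, ∀ n, x n = f n (g n) := ⟨fun n => f n (g n), fun _ => rfl⟩
  refine ⟨x, fun n => ?_⟩
  have : rp x n = g n := by
    induction n with
    | zero => rfl
    | succ n ih => rw [rp_succ, ih, hx]
  rw [this]
  exact hx n

/-- plays following a strategy for one of the players -/
def Fol (b : ℕ) (s : List Bool → Bool) : Set Seq := {y | ∀ n, n % 2 = b → y n = s (rp y n)}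

theorem mk_Fol (b : ℕ) (hb : b < 2) (s : List Bool → Bool) :
    Cardinal.mk Seq ≤ Cardinal.mk (Fol b s) := by
  have h : ∀ z : Seq, ∃ y : Seq, ∀ n, y n = if n % 2 = b then s (rp y n) else z (n / 2) :=
    fun z => rec_seq (fun n p => if n % 2 = b then s p else z (n / 2))
  choose Φ hΦ using h
  have hmem : ∀ z, Φ z ∈ Fol b s := by
    intro z n hn
    rw [hΦ z n, if_pos hn]
  refine Cardinal.mk_le_of_injective (f := fun z => (⟨Φ z, hmem z⟩ : Fol b s)) ?_
  intro z z' hzz
  have h1 : Φ z = Φ z' := congrArg Subtype.val hzz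
  funext k
  have h2 := hΦ z (2 * k + (1 - b))
  have h3 := hΦ z' (2 * k + (1 - b))
  rw [if_neg (by omega), show (2 * k + (1 - b)) / 2 = k by omega] at h2 h3
  rw [← h2, ← h3, h1]

theorem bernstein : ∃ B : Set Seq,
    (∀ s : List Bool → Bool, ∃ y, y ∉ B ∧ ∀ n, n % 2 = 0 → y n = s (rp y n)) ∧
    (∀ s : List Bool → Bool, ∃ y, y ∈ B ∧ ∀ n, n % 2 = 1 → y n = s (rp y n)) := by
  have hcard : Cardinal.mk ((List Bool → Bool) × Bool) ≤ Cardinal.mk Seq := by
    have h1 : Cardinal.mk Seq = Cardinal.continuum := by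
      show Cardinal.mk (ℕ → Bool) = _
      simp
    rw [h1]
    simp
  obtain ⟨f, hf1, hf2⟩ := exists_injective_choice
    (fun i : (List Bool → Bool) × Bool => Fol (if i.2 then 1 else 0) i.1)
    (fun i => hcard.trans (mk_Fol _ (by split_ifs <;> omega) _))
  refine ⟨{y | ∃ s, y = f (s, true)}, ?_, ?_⟩
  · intro s
    refine ⟨f (s, false), ?_, ?_⟩
    · rintro ⟨s', hs'⟩
      have := hf1 hs'
      simp at this
    · have := hf2 (s, false)
      simpa [Fol] using this
  · intro s
    refine ⟨f (s, true), ⟨s, rfl⟩, ?_⟩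
    have := hf2 (s, true)
    simpa [Fol] using this

end Pool.Agent.TreeGame200
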