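import Mathlib

/-!
# Cantor space with the dyadic metric: cylinders, diameters, Hausdorff dimension bounds
-/

namespace Pool.Agent.TreeGame200

open Set MeasureTheory
open scoped ENNReal NNReal Topology

/-- Infinite binary sequences. -/
def Seq : Type := ℕ → Bool

/-- The dyadic metric: `dist x y = (1/2)^n`, `n` the first index at which `x` and `y` differ. -/
noncomputable instance : MetricSpace Seq := PiNat.metricSpace (E := fun _ : ℕ => Bool)

noncomputable instance : MeasurableSpace Seq := borel Seq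
instance : BorelSpace Seq := ⟨rfl⟩

instance : Inhabited Seq := ⟨fun _ => false⟩

/-- The first `n` entries, most recent first. -/
def rp (x : Seq) : ℕ → List Bool
  | 0 => []
  | n + 1 => x n :: rp x n

@[simp] theorem rp_zero (x : Seq) : rp x 0 = [] := rfl
theorem rp_succ (x : Seq) (n : ℕ) : rp x (n + 1) = x n :: rp x n := rfl
@[simp] theorem rp_length (x : Seq) (n : ℕ) : (rp x n).length = n := by
  induction n with
  | zero => rfl
  | succ n ih => rw [rp_succ, List.length_cons, ih]

theorem rp_eq_rp {x y : Seq} {n : ℕ} : rp x n = rp y n ↔ ∀ i < n, x i = y i := by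
  induction n with
  | zero => simp
  | succ n ih =>
    rw [rp_succ, rp_succ, List.cons.injEq, ih]
    constructor
    · rintro ⟨h1, h2⟩ i hi
      rcases Nat.lt_succ_iff_lt_or_eq.1 hi with h | h
      · exact h2 i h
      · rw [h]; exact h1
    · intro h
      exact ⟨h n (by omega), fun i hi => h i (by omega)⟩

theorem rp_eq_of_le {x y : Seq} {m n : ℕ} (h : rp x n = rp y n) (hm : m ≤ n) :
    rp x m = rp y m := by
  rw [rp_eq_rp] at h ⊢
  exact fun i hi => h i (by omega)

/-- The set of sequences extending a given (reversed) finite sequence. -/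
def Cyl (p : List Bool) : Set Seq := {x | rp x p.length = p}

theorem mem_Cyl {p : List Bool} {x : Seq} : x ∈ Cyl p ↔ rp x p.length = p := Iff.rfl

theorem mem_Cyl_rp {x y : Seq} {n : ℕ} : y ∈ Cyl (rp x n) ↔ ∀ i < n, y i = x i := by
  rw [mem_Cyl, rp_length, rp_eq_rp]

theorem self_mem_Cyl (x : Seq) (n : ℕ) : x ∈ Cyl (rp x n) := by
  rw [mem_Cyl, rp_length]

@[simp] theorem Cyl_nil : Cyl [] = univ := by
  ext x; simp [mem_Cyl]

theorem mem_Cyl_cons {b : Bool} {p : List Bool} {x : Seq} :
    x ∈ Cyl (b :: p) ↔ x ∈ Cyl p ∧ x p.length = b := by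
  rw [mem_Cyl, mem_Cyl, List.length_cons, rp_succ, List.cons.injEq]
  exact and_comm

theorem Cyl_split (p : List Bool) : Cyl p = Cyl (false :: p) ∪ Cyl (true :: p) := by
  ext x
  rw [mem_union, mem_Cyl_cons, mem_Cyl_cons]
  cases x p.length <;> simp

/-- The default extension of a finite sequence. -/
def dext (p : List Bool) : Seq := fun n => (p.reverse).getD n false

theorem dext_mem (p : List Bool) : dext p ∈ Cyl p := by
  induction p with
  | nil => simp
  | cons b p ih =>
    rw [mem_Cyl_cons]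
    constructor
    · have h2 : rp (dext (b :: p)) p.length = rp (dext p) p.length := by
        rw [rp_eq_rp]
        intro i hi
        simp only [dext, List.reverse_cons]
        rw [List.getD_append]
        simpa using hi
      rw [mem_Cyl, h2]
      exact ih
    · simp [dext]

theorem Cyl_nonempty (p : List Bool) : (Cyl p).Nonempty := ⟨_, dext_mem p⟩

theorem half_pow (n : ℕ) : (2⁻¹ : ℝ≥0∞) ^ n = ENNReal.ofReal ((1 / 2 : ℝ) ^ n) := by
  rw [ENNReal.ofReal_pow (by norm_num), one_div, ENNReal.ofReal_inv_of_pos (by norm_num)]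
  norm_num

theorem dist_le_iff {x y : Seq} {n : ℕ} :
    dist x y ≤ (1 / 2 : ℝ) ^ n ↔ ∀ i < n, x i = y i := by
  have h1 := @PiNat.mem_cylinder_iff_dist_le (fun _ => Bool) y x n
  have h2 := @PiNat.mem_cylinder_iff (fun _ => Bool) y x n
  exact (h1.symm.trans h2)

theorem edist_le_iff {x y : Seq} {n : ℕ} :
    edist x y ≤ (2⁻¹ : ℝ≥0∞) ^ n ↔ ∀ i < n, x i = y i := by
  rw [half_pow, edist_dist, ENNReal.ofReal_le_ofReal_iff (by positivity)]
  exact dist_le_iff

theorem ediam_Cyl_le (p : List Bool) : Metric.ediam (Cyl p) ≤ (2⁻¹ : ℝ≥0∞) ^ p.length := by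
  apply Metric.ediam_le
  intro x hx y hy
  rw [edist_le_iff]
  rw [mem_Cyl] at hx hy
  rw [← rp_eq_rp, hx, hy]

theorem isOpen_Cyl (p : List Bool) : IsOpen (Cyl p) := by
  rw [Metric.isOpen_iff]
  intro x hx
  refine ⟨(1 / 2 : ℝ) ^ p.length, by positivity, ?_⟩
  intro y hy
  rw [Metric.mem_ball] at hy
  have := dist_le_iff.1 hy.le
  rw [mem_Cyl] at hx ⊢
  rw [← hx, rp_length]
  exact rp_eq_rp.2 this

theorem isClosed_Cyl (p : List Bool) : IsClosed (Cyl p) := by
  rw [← isOpen_compl_iff, Metric.isOpen_iff]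
  intro x hx
  refine ⟨(1 / 2 : ℝ) ^ p.length, by positivity, ?_⟩
  intro y hy hy'
  rw [Metric.mem_ball] at hy
  have := dist_le_iff.1 hy.le
  apply hx
  rw [mem_Cyl] at hy' ⊢
  rw [← hy', rp_length]
  exact (rp_eq_rp.2 this).symm

/-- membership in a closed set from all finite approximations -/
theorem mem_of_closed {K : Set Seq} (hK : IsClosed K) {x : Seq}
    (h : ∀ n, (K ∩ Cyl (rp x n)).Nonempty) : x ∈ K := by
  rw [← hK.closure_eq, Metric.mem_closure_iff]
  intro ε hε
  obtain ⟨n, hn⟩ := exists_pow_lt_of_lt_one hε (by norm_num : (1 / 2 : ℝ) < 1)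
  obtain ⟨y, hy, hy2⟩ := h n
  refine ⟨y, hy, lt_of_le_of_lt ?_ hn⟩
  rw [dist_comm, dist_le_iff]
  exact mem_Cyl_rp.1 hy2

/-- closedness criterion: if every non-member has a finite initial segment all of whose
extensions are non-members -/
theorem isClosed_of_prefix {K : Set Seq}
    (h : ∀ x, x ∉ K → ∃ n, ∀ y, (∀ i < n, y i = x i) → y ∉ K) : IsClosed K := by
  rw [← isOpen_compl_iff, Metric.isOpen_iff]
  intro x hx
  obtain ⟨n, hn⟩ := h x hx
  refine ⟨(1 / 2 : ℝ) ^ n, by positivity, ?_⟩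
  intro y hy
  rw [Metric.mem_ball] at hy
  exact hn y (dist_le_iff.1 hy.le)

/-- Every nonempty set is contained in a cylinder of nearly the same size. -/
theorem exists_Cyl {A : Set Seq} (hA : A.Nonempty) {s : ℝ} (hs : 0 < s) {ε : ℝ≥0∞} (hε : ε ≠ 0) :
    ∃ q : List Bool, A ⊆ Cyl q ∧ ((2⁻¹ : ℝ≥0∞) ^ q.length) ^ s ≤ Metric.ediam A ^ s + ε := by
  obtain ⟨x, hx⟩ := hA
  by_cases h : ∃ n, ∃ y ∈ A, y n ≠ x n
  · -- least such n
    classical
    let n := Nat.find h
    obtain ⟨y, hy, hyn⟩ := Nat.find_spec h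
    refine ⟨rp x n, ?_, ?_⟩
    · intro z hz
      rw [mem_Cyl_rp]
      intro i hi
      by_contra hne
      exact Nat.find_min h hi ⟨z, hz, hne⟩
    · refine le_trans ?_ le_self_add
      apply ENNReal.rpow_le_rpow _ hs.le
      rw [rp_length]
      -- edist x y = 2^-n
      refine le_trans ?_ (Metric.edist_le_ediam_of_mem hx hy)
      by_contra hlt
      rw [not_le] at hlt
      rw [half_pow, edist_dist, ENNReal.ofReal_lt_ofReal_iff (by positivity)] at hlt
      have h3 := @PiNat.apply_eq_of_dist_lt (fun _ => Bool) x y n hlt n le_rfl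
      exact hyn h3.symm
  · push Not at h
    have hA' : ∀ n, A ⊆ Cyl (rp x n) := by
      intro n z hz
      rw [mem_Cyl_rp]
      intro i _
      exact h i z hz
    have hlim : Filter.Tendsto (fun n : ℕ => ((2⁻¹ : ℝ≥0∞) ^ n) ^ s) Filter.atTop (𝓝 0) := by
      have h1 : Filter.Tendsto (fun n : ℕ => ((2⁻¹ : ℝ≥0∞) ^ n)) Filter.atTop (𝓝 0) := by
        apply ENNReal.tendsto_pow_atTop_nhds_zero_of_lt_one
        simp
      have h2 := (ENNReal.continuous_rpow_const (y := s)).tendsto 0
      have h3 := h2.comp h1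
      rw [ENNReal.zero_rpow_of_pos hs] at h3
      exact h3
    obtain ⟨n, hn⟩ := ((ENNReal.tendsto_nhds_zero.1 hlim) ε (pos_iff_ne_zero.2 hε)).exists
    refine ⟨rp x n, hA' n, ?_⟩
    rw [rp_length]
    exact hn.trans le_add_self

end Pool.Agent.TreeGame200
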