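import Pool.Agent.TreeGame200.Basic

/-!
# Content, path argument, lower and upper bounds for Hausdorff dimension
-/

namespace Pool.Agent.TreeGame200

open Set MeasureTheory MeasureTheory.Measure Filter
open scoped ENNReal NNReal Topology

/-- Hausdorff content. -/
noncomputable def content (s : ℝ) : OuterMeasure Seq :=
  OuterMeasure.boundedBy (fun A => Metric.ediam A ^ s)

theorem content_Cyl_le {s : ℝ} (hs : 0 < s) (p : List Bool) (K : Set Seq) :
    content s (K ∩ Cyl p) ≤ ((2⁻¹ : ℝ≥0∞) ^ p.length) ^ s := by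
  refine (measure_mono inter_subset_right).trans ?_
  refine (OuterMeasure.boundedBy_le _).trans ?_
  exact ENNReal.rpow_le_rpow (ediam_Cyl_le p) hs.le

theorem content_split (s : ℝ) (p : List Bool) (K : Set Seq) :
    content s (K ∩ Cyl p) ≤ content s (K ∩ Cyl (false :: p)) + content s (K ∩ Cyl (true :: p)) := by
  have : K ∩ Cyl p = (K ∩ Cyl (false :: p)) ∪ (K ∩ Cyl (true :: p)) := by
    rw [← inter_union_distrib_left, ← Cyl_split]
  rw [this]
  exact measure_union_le _ _

theorem hausdorff_zero_of_content_zero {s : ℝ} (hs : 0 < s) {K : Set Seq}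
    (h : content s K = 0) : μH[s] K = 0 := by
  rw [hausdorffMeasure_apply]
  rw [ENNReal.iSup_eq_zero]
  intro r
  rw [ENNReal.iSup_eq_zero]
  intro hr
  by_contra hne
  -- pick ε
  set I := ⨅ (t : ℕ → Set Seq) (_ : K ⊆ ⋃ n, t n) (_ : ∀ n, Metric.ediam (t n) ≤ r),
          ∑' n, ⨆ _ : (t n).Nonempty, Metric.ediam (t n) ^ s with hI
  have hpos : 0 < min I (r ^ s) := by
    rw [lt_min_iff]
    refine ⟨pos_iff_ne_zero.2 hne, ?_⟩
    exact ENNReal.rpow_pos_of_nonneg hr hs.le
  have h2 : content s K < min I (r ^ s) := by rw [h]; exact hpos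
  unfold content at h2
  rw [OuterMeasure.boundedBy_apply] at h2
  rw [iInf_lt_iff] at h2
  obtain ⟨t, ht⟩ := h2
  rw [iInf_lt_iff] at ht
  obtain ⟨ht1, ht2⟩ := ht
  have ht3 : ∀ n, Metric.ediam (t n) ≤ r := by
    intro n
    by_cases hn : (t n).Nonempty
    · have h3 : Metric.ediam (t n) ^ s ≤ ∑' n, ⨆ _ : (t n).Nonempty, Metric.ediam (t n) ^ s := by
        refine le_trans ?_ (ENNReal.le_tsum n)
        rw [ciSup_pos hn]
      have h4 : Metric.ediam (t n) ^ s ≤ r ^ s :=
        (h3.trans_lt (ht2.trans_le (min_le_right _ _))).le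
      exact (ENNReal.rpow_le_rpow_iff hs).1 h4
    · rw [not_nonempty_iff_eq_empty] at hn
      rw [hn]; simp
  have h5 : I ≤ ∑' n, ⨆ _ : (t n).Nonempty, Metric.ediam (t n) ^ s := by
    rw [hI]
    exact iInf_le_of_le t (iInf_le_of_le ht1 (iInf_le_of_le ht3 le_rfl))
  exact absurd (ht2.trans_le (min_le_left _ _)) (not_lt.2 h5)

/-- infinite path in a binary tree without dead ends -/
theorem exists_path (A : List Bool → Prop) (h0 : A []) (h : ∀ p, A p → ∃ b, A (b :: p)) :
    ∃ x : Seq, ∀ n, A (rp x n) := by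
  choose! f hf using h
  let g : ℕ → List Bool := fun n => Nat.rec [] (fun _ p => f p :: p) n
  have hg : ∀ n, A (g n) := by
    intro n
    induction n with
    | zero => exact h0
    | succ n ih => exact hf _ ih
  obtain ⟨x, hx⟩ : ∃ x : Seq, ∀ n, x n = f (g n) := ⟨fun n => f (g n), fun _ => rfl⟩
  refine ⟨x, fun n => ?_⟩
  have : rp x n = g n := by
    induction n with
    | zero => rfl
    | succ n ih => rw [rp_succ, ih, hx]
  rw [this]
  exact hg n

/-- relative version: a path extending a given node -/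
theorem exists_path_from (A : List Bool → Prop) (p : List Bool) (h0 : A p)
    (h : ∀ q, A q → ∃ b, A (b :: q)) :
    ∃ x : Seq, x ∈ Cyl p ∧ ∀ n, p.length ≤ n → A (rp x n) := by
  obtain ⟨x, hx⟩ := exists_path (fun q => (q.length ≤ p.length ∧ q <:+ p) ∨
    (p.length ≤ q.length ∧ p <:+ q ∧ A q)) (Or.inl ⟨by simp, List.nil_suffix⟩) (by
      rintro q (⟨hq1, hq2⟩ | ⟨hq1, hq2, hq3⟩)
      · rcases Nat.lt_or_ge q.length p.length with hlt | hge
        · obtain ⟨r, hr⟩ := hq2
          rcases List.eq_nil_or_concat r with hr0 | ⟨r', b, hr'⟩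
          · subst hr0; simp at hr; subst hr; omega
          · refine ⟨b, Or.inl ⟨by simpa using hlt, ⟨r', ?_⟩⟩⟩
            rw [← hr, hr']
            simp
        · have : q = p := hq2.eq_of_length_le hge
          subst this
          obtain ⟨b, hb⟩ := h q h0
          exact ⟨b, Or.inr ⟨by simp, List.suffix_cons _ _, hb⟩⟩
      · obtain ⟨b, hb⟩ := h q hq3
        exact ⟨b, Or.inr ⟨by simp; omega, hq2.trans (List.suffix_cons _ _), hb⟩⟩)
  have hp : rp x p.length = p := by
    rcases hx p.length with ⟨_, h2⟩ | ⟨_, h2, _⟩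
    · exact h2.eq_of_length (by simp)
    · exact (h2.eq_of_length (by simp)).symm
  refine ⟨x, hp, fun n hn => ?_⟩
  rcases hx n with ⟨h1, h2⟩ | ⟨_, _, h3⟩
  · rw [rp_length] at h1
    have : n = p.length := by omega
    rw [this, hp]; exact h0
  · exact h3

theorem suffix_rp {x : Seq} {p : List Bool} {n : ℕ} (h : p <:+ rp x n) : x ∈ Cyl p := by
  have hl : p.length ≤ n := by simpa using h.length_le
  induction n with
  | zero => simp at hl; simp [hl]
  | succ n ih =>
    rw [rp_succ, List.suffix_cons_iff] at h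
    rcases h with h | h
    · rw [h]
      have := self_mem_Cyl x (n + 1)
      rwa [rp_succ] at this
    · exact ih h (by simpa using h.length_le)

theorem rp_suffix {x : Seq} {m n : ℕ} (h : m ≤ n) : rp x m <:+ rp x n := by
  induction n with
  | zero => simp at h; simp [h]
  | succ n ih =>
    rcases Nat.le_succ_iff.1 h with h | h
    · exact (ih h).trans (by rw [rp_succ]; exact List.suffix_cons _ _)
    · rw [h]

/-- The path argument. -/
theorem walk (g : List Bool → ℝ≥0∞) (hg : ∀ p, g p ≤ g (false :: p) + g (true :: p))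
    (q : ℕ → List Bool) (h : ∑' i, g (q i) < g []) :
    ∃ x : Seq, (∀ n, g (rp x n) ≠ 0) ∧ ∀ i, x ∉ Cyl (q i) := by
  classical
  let S : List Bool → ℝ≥0∞ := fun p => ∑' i, if p <:+ q i then g (q i) else 0
  have hS : ∀ p, S p < g p → ∃ b, S (b :: p) < g (b :: p) := by
    intro p hp
    by_contra hcon
    push Not at hcon
    have h1 : ∀ i, p ≠ q i := by
      intro i hi
      have : g (q i) ≤ S p := by
        refine le_trans ?_ (ENNReal.le_tsum i)
        rw [if_pos (by rw [hi])]
      rw [← hi] at this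
      exact absurd hp (not_lt.2 this)
    have h2 : S (false :: p) + S (true :: p) ≤ S p := by
      simp only [S]
      rw [← ENNReal.tsum_add]
      apply ENNReal.tsum_le_tsum
      intro i
      by_cases hf : (false :: p) <:+ q i
      · have ht : ¬ (true :: p) <:+ q i := by
          intro ht
          obtain ⟨r, hr⟩ := hf
          obtain ⟨r', hr'⟩ := ht
          have := hr.trans hr'.symm
          have hl : r.length = r'.length := by
            have := congrArg List.length this
            simp at this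
            exact this
          have h3 := List.append_inj this hl
          simp at h3
        have hp2 : p <:+ q i := (List.suffix_cons _ _).trans hf
        rw [if_pos hf, if_neg ht, if_pos hp2, add_zero]
      · by_cases ht : (true :: p) <:+ q i
        · have hp2 : p <:+ q i := (List.suffix_cons _ _).trans ht
          rw [if_neg hf, if_pos ht, if_pos hp2, zero_add]
        · rw [if_neg hf, if_neg ht]; simp
    have h3 : g p ≤ S p := (hg p).trans ((add_le_add (hcon false) (hcon true)).trans h2)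
    exact absurd hp (not_lt.2 h3)
  obtain ⟨x, hx⟩ := exists_path (fun p => S p < g p) (by
    refine lt_of_le_of_lt ?_ h
    apply ENNReal.tsum_le_tsum
    intro i
    split_ifs <;> simp) hS
  refine ⟨x, fun n hn => ?_, fun i hi => ?_⟩
  · have := hx n
    rw [hn] at this
    simp at this
  · have h1 := hx (q i).length
    rw [mem_Cyl.1 hi] at h1
    have : g (q i) ≤ S (q i) := by
      refine le_trans ?_ (ENNReal.le_tsum i)
      rw [if_pos List.suffix_rfl]
    exact absurd h1 (not_lt.2 this)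

/-- Lower bound for Hausdorff dimension of the support of a subadditive function. -/
theorem le_dimH_of_walk (g : List Bool → ℝ≥0∞) (hg : ∀ p, g p ≤ g (false :: p) + g (true :: p))
    (h0 : g [] ≠ 0) {t : ℝ≥0} (ht : 0 < t) {C : ℝ≥0∞} (hC0 : C ≠ 0) (hC : C ≠ ∞)
    (hb : ∀ p, g p ≤ C * ((2⁻¹ : ℝ≥0∞) ^ p.length) ^ (t : ℝ)) :
    (t : ℝ≥0∞) ≤ dimH {x : Seq | ∀ n, g (rp x n) ≠ 0} := by
  apply le_dimH_of_hausdorffMeasure_ne_zero
  intro hzero
  set K := {x : Seq | ∀ n, g (rp x n) ≠ 0} with hK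
  rw [hausdorffMeasure_apply] at hzero
  rw [ENNReal.iSup_eq_zero] at hzero
  have h1 := hzero 1
  rw [ENNReal.iSup_eq_zero] at h1
  have h1 := h1 one_pos
  -- choose ε with C * ε < g []
  obtain ⟨ε, hε0, hε⟩ : ∃ ε : ℝ≥0∞, ε ≠ 0 ∧ C * ε < g [] := by
    have hg0 : g [] / C ≠ 0 := ENNReal.div_ne_zero.2 ⟨h0, hC⟩
    obtain ⟨ε, he1, he2⟩ := exists_between (pos_iff_ne_zero.2 hg0)
    refine ⟨ε, he1.ne', ?_⟩
    rw [mul_comm]
    exact (ENNReal.lt_div_iff_mul_lt (Or.inl hC0) (Or.inl hC)).1 he2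
  have hε2 : ε / 2 ≠ 0 := by
    simp [ENNReal.div_eq_zero_iff, hε0]
  have h2 : (⨅ (t' : ℕ → Set Seq) (_ : K ⊆ ⋃ n, t' n) (_ : ∀ n, Metric.ediam (t' n) ≤ 1),
          ∑' n, ⨆ _ : (t' n).Nonempty, Metric.ediam (t' n) ^ (t : ℝ)) < ε / 2 := by
    rw [h1]; exact pos_iff_ne_zero.2 hε2
  rw [iInf_lt_iff] at h2
  obtain ⟨u, hu⟩ := h2
  rw [iInf_lt_iff] at hu
  obtain ⟨hu1, hu⟩ := hu
  rw [iInf_lt_iff] at hu
  obtain ⟨_, hu2⟩ := hu
  obtain ⟨ε', he'0, he'⟩ := ENNReal.exists_pos_sum_of_countable' hε2 ℕ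
  -- choose cylinders
  have hex : ∀ n, ∃ q : List Bool, u n ⊆ Cyl q ∧
      ((2⁻¹ : ℝ≥0∞) ^ q.length) ^ (t : ℝ) ≤
        (⨆ _ : (u n).Nonempty, Metric.ediam (u n) ^ (t : ℝ)) + ε' n := by
    intro n
    by_cases hn : (u n).Nonempty
    · obtain ⟨q, hq1, hq2⟩ := exists_Cyl hn (s := (t : ℝ)) (by exact_mod_cast ht) (he'0 n).ne'
      refine ⟨q, hq1, ?_⟩
      rw [ciSup_pos hn]
      exact hq2
    · obtain ⟨q, hq1, hq2⟩ := exists_Cyl (A := {default}) (singleton_nonempty _) (s := (t : ℝ))
        (by exact_mod_cast ht) (he'0 n).ne'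
      refine ⟨q, ?_, ?_⟩
      · rw [not_nonempty_iff_eq_empty] at hn
        rw [hn]; exact empty_subset _
      · refine hq2.trans ?_
        rw [Metric.ediam_singleton, ENNReal.zero_rpow_of_pos (by exact_mod_cast ht), zero_add]
        exact le_add_self
  choose q hq1 hq2 using hex
  have hsum : ∑' i, g (q i) < g [] := by
    calc ∑' i, g (q i) ≤ ∑' i, C * ((⨆ _ : (u i).Nonempty, Metric.ediam (u i) ^ (t : ℝ)) + ε' i) := by
          apply ENNReal.tsum_le_tsum
          intro i
          exact (hb (q i)).trans (by gcongr; exact hq2 i)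
      _ = C * ((∑' i, ⨆ _ : (u i).Nonempty, Metric.ediam (u i) ^ (t : ℝ)) + ∑' i, ε' i) := by
          rw [ENNReal.tsum_mul_left, ENNReal.tsum_add]
      _ ≤ C * (ε / 2 + ε / 2) := by gcongr
      _ = C * ε := by rw [ENNReal.add_halves]
      _ < g [] := hε
  obtain ⟨x, hx1, hx2⟩ := walk g hg q hsum
  have hxK : x ∈ K := hx1
  obtain ⟨n, hn⟩ := mem_iUnion.1 (hu1 hxK)
  exact hx2 n (hq1 n hn)

/-- Upper bound of Hausdorff dimension by one half. -/
theorem dimH_le_half (S : Set Seq) (C : ℕ)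
    (h : ∀ k : ℕ, ∃ F : Finset Seq, F.card ≤ C * 2 ^ k ∧
      ∀ x ∈ S, ∃ y ∈ F, ∀ i < 2 * k, x i = y i) : dimH S ≤ 1 / 2 := by
  choose F hF1 hF2 using h
  have key : μH[((1 / 2 : ℝ≥0) : ℝ)] S ≤ (C : ℝ≥0∞) := by
    have h1 := hausdorffMeasure_le_liminf_sum (ι := fun k => {y // y ∈ F k})
      ((1 / 2 : ℝ≥0) : ℝ) S (l := atTop)
      (fun k : ℕ => (2⁻¹ : ℝ≥0∞) ^ (2 * k)) ?_ (fun k y => Cyl (rp y.1 (2 * k))) ?_ ?_
    · refine h1.trans ?_
      refine (liminf_le_of_le (f := atTop) (a := (C : ℝ≥0∞)) (by isBoundedDefault) ?_)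
      intro b hb
      obtain ⟨k, hk⟩ := hb.exists
      refine hk.trans ?_
      calc ∑ y : {y // y ∈ F k}, Metric.ediam (Cyl (rp y.1 (2 * k))) ^ ((1 / 2 : ℝ≥0) : ℝ)
          ≤ ∑ y : {y // y ∈ F k}, (2⁻¹ : ℝ≥0∞) ^ k := by
            apply Finset.sum_le_sum
            intro y _
            have h2 := ediam_Cyl_le (rp y.1 (2 * k))
            rw [rp_length] at h2
            refine (ENNReal.rpow_le_rpow h2 (by positivity)).trans ?_
            rw [← ENNReal.rpow_natCast, ← ENNReal.rpow_mul, ← ENNReal.rpow_natCast]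
            apply le_of_eq
            congr 1
            push_cast
            ring
        _ = (F k).card * (2⁻¹ : ℝ≥0∞) ^ k := by
            rw [Finset.sum_const, nsmul_eq_mul]
            simp
        _ ≤ (C * 2 ^ k : ℕ) * (2⁻¹ : ℝ≥0∞) ^ k := by
            gcongr
            exact hF1 k
        _ = C := by
            push_cast
            rw [mul_assoc, ← mul_pow, ENNReal.mul_inv_cancel (by norm_num) (by norm_num), one_pow,
              mul_one]
    · have h3 : Tendsto (fun n : ℕ => ((2⁻¹ : ℝ≥0∞) ^ n)) atTop (𝓝 0) := by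
        apply ENNReal.tendsto_pow_atTop_nhds_zero_of_lt_one
        simp
      exact h3.comp (tendsto_id.const_mul_atTop' (by norm_num))
    · filter_upwards with k y
      have h2 := ediam_Cyl_le (rp y.1 (2 * k))
      rwa [rp_length] at h2
    · filter_upwards with k x hx
      obtain ⟨y, hy, hxy⟩ := hF2 k x hx
      rw [mem_iUnion]
      refine ⟨⟨y, hy⟩, ?_⟩
      rw [mem_Cyl_rp]
      exact hxy
  have h4 := dimH_le_of_hausdorffMeasure_ne_top (ne_top_of_le_ne_top (ENNReal.natCast_ne_top C) key)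
  refine h4.trans ?_
  rw [ENNReal.coe_div (by norm_num)]
  norm_num

end Pool.Agent.TreeGame200
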