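import Pool.Agent.TreeGame200.Bernstein

/-!
# Embedding the alternating binary game in a closed set of dimension greater than one half
-/

namespace Pool.Agent.TreeGame200

open Set MeasureTheory MeasureTheory.Measure Filter
open scoped ENNReal NNReal Topology

/-- change one entry -/
def upd (y : Seq) (n : ℕ) (v : Bool) : Seq := fun i => if i = n then v else y i

theorem upd_same (y : Seq) (n : ℕ) (v : Bool) : upd y n v n = v := if_pos rfl
theorem upd_ne (y : Seq) {n i : ℕ} (v : Bool) (h : i ≠ n) : upd y n v i = y i := if_neg h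

/-- number of free levels -/
def free (L b : ℕ) : ℕ → ℕ
  | 0 => 0
  | n + 1 => free L b n + (if n < L ∨ n % 2 ≠ b then 1 else 0)

theorem free_le {L b : ℕ} (hb : b < 2) (n : ℕ) : free L b n ≤ min n L + (n + b) / 2 := by
  induction n with
  | zero => simp [free]
  | succ n ih =>
    simp only [free]
    split_ifs with h
    · rcases h with h | h <;> omega
    · omega

/-- If, from some level on, only one player has choices, then the dimension is at most 1/2. -/
theorem dimH_one_player {b : ℕ} (hb : b < 2) (L : ℕ) (g : List Bool → Bool) :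
    dimH {x : Seq | ∀ n, L ≤ n → n % 2 = b → x n = g (rp x n)} ≤ 1 / 2 := by
  classical
  set S := {x : Seq | ∀ n, L ≤ n → n % 2 = b → x n = g (rp x n)} with hS
  have key : ∀ n, ∃ F : Finset Seq, F.card ≤ 2 ^ (free L b n) ∧
      ∀ x ∈ S, ∃ y ∈ F, ∀ i < n, x i = y i := by
    intro n
    induction n with
    | zero =>
      exact ⟨{default}, by simp [free], fun x _ => ⟨default, by simp, fun i hi => absurd hi (by omega)⟩⟩
    | succ n ih =>
      obtain ⟨F, hF1, hF2⟩ := ih
      by_cases h : n < L ∨ n % 2 ≠ b
      · refine ⟨F.image (fun y => upd y n false) ∪ F.image (fun y => upd y n true), ?_, ?_⟩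
        · refine (Finset.card_union_le _ _).trans ?_
          have h1 := Finset.card_image_le (s := F) (f := fun y => upd y n false)
          have h2 := Finset.card_image_le (s := F) (f := fun y => upd y n true)
          simp only [free]
          rw [if_pos h, pow_succ]
          omega
        · intro x hx
          obtain ⟨y, hy, hxy⟩ := hF2 x hx
          refine ⟨upd y n (x n), ?_, ?_⟩
          · rw [Finset.mem_union, Finset.mem_image, Finset.mem_image]
            cases x n
            · exact Or.inl ⟨y, hy, rfl⟩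
            · exact Or.inr ⟨y, hy, rfl⟩
          · intro i hi
            by_cases hin : i = n
            · subst hin; rw [upd_same]
            · rw [upd_ne _ _ hin]; exact hxy i (by omega)
      · push Not at h
        refine ⟨F.image (fun y => upd y n (g (rp y n))), ?_, ?_⟩
        · simp only [free]
          rw [if_neg (by push Not; exact h)]
          exact Finset.card_image_le.trans hF1
        · intro x hx
          obtain ⟨y, hy, hxy⟩ := hF2 x hx
          refine ⟨upd y n (g (rp y n)), Finset.mem_image.2 ⟨y, hy, rfl⟩, ?_⟩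
          intro i hi
          by_cases hin : i = n
          · subst hin
            rw [upd_same, hx i h.1 h.2, rp_eq_rp.2 hxy]
          · rw [upd_ne _ _ hin]; exact hxy i (by omega)
  apply dimH_le_half S (2 ^ (L + 1))
  intro k
  obtain ⟨F, hF1, hF2⟩ := key (2 * k)
  refine ⟨F, hF1.trans ?_, hF2⟩
  rw [← pow_add]
  apply Nat.pow_le_pow_right (by norm_num)
  have := free_le (L := L) hb (2 * k)
  omega

/-- nodes whose part of the closed set has dimension greater than one half -/
def Big (K : Set Seq) (p : List Bool) : Prop := 1 / 2 < dimH (K ∩ Cyl p)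

theorem branching {K : Set Seq} {p : List Bool} (hp : Big K p) (L b : ℕ) (hb : b < 2) :
    ∃ q : List Bool, p <:+ q ∧ L ≤ q.length ∧ q.length % 2 = b ∧
      Big K (false :: q) ∧ Big K (true :: q) := by
  classical
  by_contra hcon
  push Not at hcon
  let g : List Bool → Bool := fun q => decide (Big K (true :: q))
  have hsub : K ∩ Cyl p ⊆ {x : Seq | ∀ n, (max L p.length) ≤ n → n % 2 = b → x n = g (rp x n)} ∪
      ⋃ r : {r : List Bool // ¬ Big K r}, K ∩ Cyl r.1 := by
    rintro x ⟨hxK, hxp⟩
    by_cases h : ∀ n, (max L p.length) ≤ n → n % 2 = b → x n = g (rp x n)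
    · exact Or.inl h
    · right
      push Not at h
      obtain ⟨n, hn1, hn2, hn3⟩ := h
      have h1 : p <:+ rp x n := by
        rw [← mem_Cyl.1 hxp]
        exact rp_suffix (le_trans (le_max_right _ _) hn1)
      have h2 := hcon (rp x n) h1 (by rw [rp_length]; exact le_trans (le_max_left _ _) hn1)
        (by rw [rp_length]; exact hn2)
      rw [mem_iUnion]
      refine ⟨⟨rp x (n + 1), ?_⟩, hxK, self_mem_Cyl x (n + 1)⟩
      rw [rp_succ]
      by_cases h3 : Big K (true :: rp x n)
      · have : g (rp x n) = true := by simp only [g]; simpa using h3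
        rw [this] at hn3
        have : x n = false := by simpa using hn3
        rw [this]
        intro h4
        exact h2 h4 h3
      · have : g (rp x n) = false := by simp only [g]; simpa using h3
        rw [this] at hn3
        have : x n = true := by simpa using hn3
        rw [this]
        exact h3
  have hle : dimH (K ∩ Cyl p) ≤ 1 / 2 := by
    refine (dimH_mono hsub).trans ?_
    rw [dimH_union, dimH_iUnion]
    apply max_le
    · exact dimH_one_player hb _ g
    · apply iSup_le
      intro r
      exact not_lt.1 r.2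
  exact absurd hp (not_lt.2 hle)

/-- data of the embedding -/
structure Emb (K : Set Seq) where
  nd : List Bool → List Bool
  big : ∀ p b, Big K (b :: nd p)
  len0 : ∀ p, 2 * p.length ≤ (nd p).length
  par : ∀ p, (nd p).length % 2 = p.length % 2
  suf : ∀ b p, (b :: nd p) <:+ nd (b :: p)

theorem exists_emb {K : Set Seq} (hK : 1 / 2 < dimH K) : Nonempty (Emb K) := by
  have h0 : Big K [] := by
    unfold Big
    rw [Cyl_nil, inter_univ]
    exact hK
  have hb := fun (p : List Bool) (hp : Big K p) (L b : ℕ) (hb : b < 2) => branching hp L b hb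
  choose! f hf1 hf2 hf3 hf4 hf5 using hb
  let nd : List Bool → List Bool := fun p =>
    List.rec (f [] 0 0) (fun b p ih => f (b :: ih) (ih.length + 2) ((p.length + 1) % 2)) p
  have nd0 : nd [] = f [] 0 0 := rfl
  have nd1 : ∀ b p, nd (b :: p) = f (b :: nd p) ((nd p).length + 2) ((p.length + 1) % 2) :=
    fun _ _ => rfl
  have hbig : ∀ p b, Big K (b :: nd p) := by
    intro p
    induction p with
    | nil =>
      intro b
      rw [nd0]
      cases b
      · exact hf4 [] h0 0 0 (by omega)
      · exact hf5 [] h0 0 0 (by omega)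
    | cons c p ih =>
      intro b
      rw [nd1]
      cases b
      · exact hf4 _ (ih c) _ _ (Nat.mod_lt _ (by omega))
      · exact hf5 _ (ih c) _ _ (Nat.mod_lt _ (by omega))
  refine ⟨⟨nd, hbig, ?_, ?_, ?_⟩⟩
  · intro p
    induction p with
    | nil => simp
    | cons b p ih =>
      have := hf2 (b :: nd p) (hbig p b) ((nd p).length + 2) ((p.length + 1) % 2)
        (Nat.mod_lt _ (by omega))
      rw [nd1, List.length_cons]
      omega
  · intro p
    cases p with
    | nil =>
      rw [nd0]
      exact hf3 [] h0 0 0 (by omega)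
    | cons b p =>
      rw [nd1, List.length_cons]
      exact hf3 (b :: nd p) (hbig p b) ((nd p).length + 2) ((p.length + 1) % 2)
        (Nat.mod_lt _ (by omega))
  · intro b p
    rw [nd1]
    exact hf1 (b :: nd p) (hbig p b) ((nd p).length + 2) ((p.length + 1) % 2)
        (Nat.mod_lt _ (by omega))

namespace Emb

variable {K : Set Seq} (e : Emb K)

theorem suf' (b : Bool) (p : List Bool) : e.nd p <:+ e.nd (b :: p) :=
  (List.suffix_cons _ _).trans (e.suf b p)

theorem mono {p q : List Bool} (h : p <:+ q) : e.nd p <:+ e.nd q := by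
  induction q with
  | nil => rw [List.suffix_nil] at h; rw [h]
  | cons b q ih =>
    rw [List.suffix_cons_iff] at h
    rcases h with h | h
    · rw [h]
    · exact (ih h).trans (e.suf' b q)

/-- the unfolded tree -/
def UT (q : List Bool) : Prop := ∃ p, q <:+ e.nd p

theorem UT_suffix {q r : List Bool} (h : q <:+ r) (hr : e.UT r) : e.UT q := by
  obtain ⟨p, hp⟩ := hr
  exact ⟨p, h.trans hp⟩

theorem Cyl_anti {p q : List Bool} (h : p <:+ q) : Cyl q ⊆ Cyl p := by
  intro x hx
  apply suffix_rp (n := q.length)
  rw [mem_Cyl.1 hx]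
  exact h

theorem exists_phi (y : Seq) : ∃ x : Seq, ∀ n, x ∈ Cyl (e.nd (rp y n)) := by
  obtain ⟨x, hx⟩ := exists_path (fun q => ∃ n, q <:+ e.nd (rp y n)) ⟨0, List.nil_suffix⟩ (by
    rintro q ⟨n, hn⟩
    have h1 : q <:+ e.nd (rp y (n + q.length + 1)) :=
      hn.trans (e.mono (rp_suffix (by omega)))
    have h2 := e.len0 (rp y (n + q.length + 1))
    rw [rp_length] at h2
    obtain ⟨r, hr⟩ := h1
    rcases List.eq_nil_or_concat r with hr0 | ⟨r', b, hr'⟩
    · subst hr0
      rw [← hr] at h2
      simp at h2
      omega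
    · refine ⟨b, n + q.length + 1, r', ?_⟩
      rw [← hr, hr']
      simp)
  refine ⟨x, fun n => ?_⟩
  obtain ⟨m, hm⟩ := hx (e.nd (rp y n)).length
  rcases le_total n m with h | h
  · have h1 := e.mono (rp_suffix (x := y) h)
    have h2 := List.suffix_of_suffix_length_le hm h1 (by simp)
    rw [mem_Cyl]
    exact h2.eq_of_length (by simp)
  · have h1 := hm.trans (e.mono (rp_suffix (x := y) h))
    rw [mem_Cyl]
    exact h1.eq_of_length (by simp)

noncomputable def phi (y : Seq) : Seq := (e.exists_phi y).choose

theorem phi_mem (y : Seq) (n : ℕ) : e.phi y ∈ Cyl (e.nd (rp y n)) := (e.exists_phi y).choose_spec n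

theorem phi_apply (y : Seq) (n : ℕ) : e.phi y (e.nd (rp y n)).length = y n := by
  have h := e.phi_mem y (n + 1)
  rw [rp_succ] at h
  have h2 := Cyl_anti (e.suf (y n) (rp y n)) h
  rw [mem_Cyl_cons] at h2
  exact h2.2

theorem phi_UT (y : Seq) (i : ℕ) : e.UT (rp (e.phi y) i) := by
  refine ⟨rp y i, ?_⟩
  have h := e.phi_mem y i
  rw [mem_Cyl] at h
  rw [← h]
  apply rp_suffix
  have := e.len0 (rp y i)
  rw [rp_length] at this
  omega

theorem nd_Cyl (y : Seq) (p : List Bool) (h : e.phi y ∈ Cyl (e.nd p)) : rp y p.length = p := by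
  induction p with
  | nil => rfl
  | cons b p ih =>
    have h1 := Cyl_anti (e.suf b p) h
    rw [mem_Cyl_cons] at h1
    have h2 := ih h1.1
    rw [List.length_cons, rp_succ, h2]
    have h3 := e.phi_apply y p.length
    rw [h2, h1.2] at h3
    rw [h3]

theorem phi_injective : Function.Injective e.phi := by
  intro y y' h
  have : ∀ n, rp y n = rp y' n := by
    intro n
    have h1 := e.phi_mem y n
    rw [h] at h1
    have h2 := e.nd_Cyl y' _ h1
    rw [rp_length] at h2
    exact h2.symm
  funext n
  exact rp_eq_rp.1 (this (n + 1)) n (by omega)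

theorem UT_split {q : List Bool} {c d : Bool} (hcd : c ≠ d) (hc : e.UT (c :: q))
    (hd : e.UT (d :: q)) : ∃ p, q = e.nd p := by
  classical
  obtain ⟨p1, h1⟩ := hc
  obtain ⟨p2, h2⟩ := hd
  have m1 : e.phi (dext p1) ∈ Cyl (c :: q) := by
    apply Cyl_anti h1
    have := e.phi_mem (dext p1) p1.length
    rwa [mem_Cyl.1 (dext_mem p1)] at this
  have m2 : e.phi (dext p2) ∈ Cyl (d :: q) := by
    apply Cyl_anti h2
    have := e.phi_mem (dext p2) p2.length
    rwa [mem_Cyl.1 (dext_mem p2)] at this
  set y1 := dext p1
  set y2 := dext p2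
  rw [mem_Cyl_cons] at m1 m2
  have hne : ∃ n, y1 n ≠ y2 n := by
    by_contra hcon
    push Not at hcon
    have : y1 = y2 := funext hcon
    rw [this, m2.2] at m1
    exact hcd m1.2.symm
  let n := Nat.find hne
  have hn : y1 n ≠ y2 n := Nat.find_spec hne
  have hlt : ∀ i < n, y1 i = y2 i := fun i hi => by
    by_contra h
    exact Nat.find_min hne hi h
  have hr : rp y1 n = rp y2 n := rp_eq_rp.2 hlt
  have a1 := e.phi_mem y1 n
  have a2 := e.phi_mem y2 n
  have b1 := e.phi_apply y1 n
  have b2 := e.phi_apply y2 n
  rw [← hr] at a2 b2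
  refine ⟨rp y1 n, ?_⟩
  set N := e.nd (rp y1 n) with hN
  have hagree : ∀ i < N.length, e.phi y1 i = e.phi y2 i := by
    rw [← rp_eq_rp, mem_Cyl.1 a1, mem_Cyl.1 a2]
  have hagree2 : ∀ i < q.length, e.phi y1 i = e.phi y2 i := by
    rw [← rp_eq_rp, mem_Cyl.1 m1.1, mem_Cyl.1 m2.1]
  rcases lt_trichotomy q.length N.length with h | h | h
  · have := hagree _ h
    rw [m1.2, m2.2] at this
    exact absurd this hcd
  · rw [← mem_Cyl.1 m1.1, ← mem_Cyl.1 a1, h]
  · have := hagree2 _ h
    rw [b1, b2] at this
    exact absurd this hn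

/-- The tree of the embedding has dimension at most one half. -/
theorem dimH_UT : dimH {x : Seq | ∀ n, e.UT (rp x n)} ≤ 1 / 2 := by
  classical
  apply dimH_le_half _ 1
  intro k
  refine ⟨(Finset.univ : Finset (Fin k → Bool)).image (fun v => e.phi (dext (List.ofFn v))), ?_, ?_⟩
  · refine Finset.card_image_le.trans ?_
    simp
  · intro x hx
    obtain ⟨p, hp⟩ := hx (2 * k)
    obtain ⟨p', hp'l, hp'⟩ : ∃ p' : List Bool, p'.length = k ∧ rp x (2 * k) <:+ e.nd p' := by
      rcases le_total k p.length with h | h
      · refine ⟨p.drop (p.length - k), by simp; omega, ?_⟩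
        have h1 := e.mono (List.drop_suffix (p.length - k) p)
        apply List.suffix_of_suffix_length_le hp h1
        have := e.len0 (p.drop (p.length - k))
        simp at this ⊢
        omega
      · refine ⟨List.replicate (k - p.length) false ++ p, by simp; omega, ?_⟩
        exact hp.trans (e.mono (List.suffix_append _ _))
    refine ⟨e.phi (dext p'), ?_, ?_⟩
    · rw [Finset.mem_image]
      refine ⟨fun i => p'.get (i.cast hp'l.symm), Finset.mem_univ _, ?_⟩
      congr 2
      subst hp'l
      simp
    · rw [← rp_eq_rp]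
      have h1 := e.phi_mem (dext p') p'.length
      rw [mem_Cyl.1 (dext_mem p')] at h1
      have h2 := Cyl_anti hp' h1
      rw [mem_Cyl, rp_length] at h2
      exact h2.symm

end Emb

end Pool.Agent.TreeGame200
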