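import Pool.Agent.TreeGame200.Content

/-!
# Subsets of exact Hausdorff dimension of closed sets in Cantor space
-/

namespace Pool.Agent.TreeGame200

open Set MeasureTheory MeasureTheory.Measure Filter
open scoped ENNReal NNReal Topology

/-- The selection constraint on a (reversed) finite sequence. -/
def OKc (c : List Bool → Bool) (m j : ℕ) : List Bool → Prop
  | [] => True
  | b :: p => OKc c m j p ∧ (p.length % m = j → b = c p)

theorem count_bound {m j : ℕ} (hm : 0 < m) (hj : j < m) (n : ℕ) :
    (Nat.count (fun i => i % m = j) n : ℝ) ≤ n / m + 1 := by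
  have h1 : Nat.count (fun i => i % m = j) n = n.count (· ≡ j [MOD m]) := by
    congr 1
    ext i
    simp only [Nat.ModEq, Nat.mod_eq_of_lt hj]
  rw [h1, Nat.count_modEq_card _ hm]
  have h2 : ((n / m : ℕ) : ℝ) ≤ n / m := Nat.cast_div_le
  push_cast
  split_ifs
  · linarith
  · linarith

theorem step {K : Set Seq} (hK : IsClosed K) {m j : ℕ} (hm : 0 < m) (hj : j < m)
    {s t : ℝ≥0} (ht : 0 < t) (hst : (s : ℝ) = t + 1 / m) (hs : (s : ℝ≥0∞) < dimH K) :
    ∃ K' ⊆ K, IsClosed K' ∧
      (∃ c : List Bool → Bool, ∀ x ∈ K', ∀ n, n % m = j → x n = c (rp x n)) ∧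
      (t : ℝ≥0∞) ≤ dimH K' := by
  classical
  have hs0 : (0 : ℝ) < s := by
    rw [hst]; positivity
  let M : List Bool → ℝ≥0∞ := fun p => content (s : ℝ) (K ∩ Cyl p)
  let k : ℕ → ℕ := fun n => Nat.count (fun i => i % m = j) n
  let c : List Bool → Bool := fun p => decide (M (false :: p) ≤ M (true :: p))
  let g : List Bool → ℝ≥0∞ := fun p => if OKc c m j p then M p * 2 ^ (k p.length) else 0
  have hMs : ∀ p, M p ≤ M (false :: p) + M (true :: p) := fun p => content_split _ _ _
  have hMc : ∀ p, M p ≤ 2 * M (c p :: p) := by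
    intro p
    refine (hMs p).trans ?_
    rw [two_mul]
    by_cases h : M (false :: p) ≤ M (true :: p)
    · have : c p = true := by simp only [c]; simpa using h
      rw [this]
      gcongr
    · have : c p = false := by simp only [c]; simpa using h
      rw [this]
      have h' := (not_le.1 h).le
      gcongr
  have hg : ∀ p, g p ≤ g (false :: p) + g (true :: p) := by
    intro p
    by_cases hok : OKc c m j p
    · by_cases hlen : p.length % m = j
      · have hok' : OKc c m j (c p :: p) := ⟨hok, fun _ => rfl⟩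
        have hk : k (c p :: p).length = k p.length + 1 := by
          simp only [k, List.length_cons, Nat.count_succ, hlen, if_true]
        have h1 : g p ≤ g (c p :: p) := by
          simp only [g]
          rw [if_pos hok, if_pos hok', hk, pow_succ]
          calc M p * 2 ^ k p.length ≤ (2 * M (c p :: p)) * 2 ^ k p.length := by
                gcongr; exact hMc p
            _ = _ := by ring
        refine h1.trans ?_
        cases c p
        · exact le_self_add
        · exact le_add_self
      · have hok' : ∀ b, OKc c m j (b :: p) := fun b => ⟨hok, fun h => absurd h hlen⟩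
        have hk : ∀ b, k (b :: p).length = k p.length := by
          intro b
          simp only [k, List.length_cons, Nat.count_succ, hlen, if_false, add_zero]
        simp only [g]
        rw [if_pos hok, if_pos (hok' _), if_pos (hok' _), hk, hk, ← add_mul]
        gcongr
        exact hMs p
    · simp only [g]
      rw [if_neg hok]
      exact zero_le
  have h0 : g [] ≠ 0 := by
    simp only [g]
    rw [if_pos (show OKc c m j [] from trivial)]
    simp only [k, List.length_nil, Nat.count_zero, pow_zero, mul_one, M, Cyl_nil, inter_univ]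
    intro hz
    have h1 := hausdorff_zero_of_content_zero hs0 hz
    have h2 : dimH K ≤ s := dimH_le_of_hausdorffMeasure_ne_top (by rw [h1]; simp)
    exact absurd hs (not_lt.2 h2)
  have hb : ∀ p, g p ≤ 2 * ((2⁻¹ : ℝ≥0∞) ^ p.length) ^ (t : ℝ) := by
    intro p
    by_cases hok : OKc c m j p
    · simp only [g]
      rw [if_pos hok]
      have h1 : M p ≤ ((2⁻¹ : ℝ≥0∞) ^ p.length) ^ (s : ℝ) := content_Cyl_le hs0 p K
      have h2 := count_bound hm hj p.length
      refine (mul_le_mul_left h1 _).trans ?_
      have e1 : (2 : ℝ≥0∞) ^ k p.length = (2⁻¹ : ℝ≥0∞) ^ (-(k p.length : ℝ)) := by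
        rw [ENNReal.rpow_neg, ENNReal.inv_rpow, inv_inv, ENNReal.rpow_natCast]
      have e2 : (2 : ℝ≥0∞) = (2⁻¹ : ℝ≥0∞) ^ (-1 : ℝ) := by
        rw [ENNReal.rpow_neg, ENNReal.inv_rpow, inv_inv, ENNReal.rpow_one]
      rw [e1]
      nth_rw 3 [e2]
      rw [← ENNReal.rpow_natCast, ← ENNReal.rpow_mul, ← ENNReal.rpow_mul,
        ← ENNReal.rpow_add _ _ (by norm_num) (by norm_num),
        ← ENNReal.rpow_add _ _ (by norm_num) (by norm_num)]
      apply ENNReal.rpow_le_rpow_of_exponent_ge
      · norm_num
      · rw [hst]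
        have : (p.length : ℝ) * (t + 1 / m) = p.length * t + p.length / m := by ring
        rw [this]
        simp only [k]
        linarith
    · simp only [g]
      rw [if_neg hok]
      exact zero_le
  refine ⟨{x : Seq | ∀ n, g (rp x n) ≠ 0}, ?_, ?_, ⟨c, ?_⟩, ?_⟩
  · intro x hx
    apply mem_of_closed hK
    intro n
    rw [nonempty_iff_ne_empty]
    intro hem
    apply hx n
    simp only [g, M]
    rw [hem]
    simp
  · apply isClosed_of_prefix
    intro x hx
    simp only [mem_ofPred_eq, not_forall, not_not] at hx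
    obtain ⟨n, hn⟩ := hx
    refine ⟨n, fun y hy hy' => ?_⟩
    apply hy' n
    rw [rp_eq_rp.2 hy]
    exact hn
  · intro x hx n hn
    have h1 := hx (n + 1)
    simp only [g] at h1
    have h2 : OKc c m j (rp x (n + 1)) := by
      by_contra hno
      rw [if_neg hno] at h1
      exact h1 rfl
    rw [rp_succ] at h2
    have h3 := h2.2
    rw [rp_length] at h3
    exact h3 hn
  · exact le_dimH_of_walk g hg h0 ht (by norm_num) (by norm_num) hb

theorem intermediate {K : Set Seq} (hK : IsClosed K) {m : ℕ} (hm : 0 < m) {δ t : ℝ≥0}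
    (ht : 0 < t) (hδ : (δ : ℝ) = t + 1 / m) (hd : (δ : ℝ≥0∞) < dimH K) :
    ∃ V ⊆ K, (t : ℝ≥0∞) ≤ dimH V ∧ dimH V ≤ δ := by
  have key : ∀ i ≤ m, (∃ V ⊆ K, (t : ℝ≥0∞) ≤ dimH V ∧ dimH V ≤ δ) ∨
      (∃ L ⊆ K, IsClosed L ∧ (∃ c : List Bool → Bool, ∀ x ∈ L, ∀ n, n % m < i → x n = c (rp x n)) ∧
        (δ : ℝ≥0∞) < dimH L) := by
    intro i
    induction i with
    | zero =>
      intro _
      exact Or.inr ⟨K, Subset.rfl, hK, ⟨fun _ => false, fun x _ n hn => absurd hn (by omega)⟩, hd⟩
    | succ i ih =>
      intro hi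
      rcases ih (by omega) with h | ⟨L, hL1, hL2, ⟨c, hc⟩, hL3⟩
      · exact Or.inl h
      · obtain ⟨L', hL'1, hL'2, ⟨c', hc'⟩, hL'3⟩ := step hL2 hm (by omega : i < m) ht hδ hL3
        by_cases hcase : dimH L' ≤ δ
        · exact Or.inl ⟨L', hL'1.trans hL1, hL'3, hcase⟩
        · right
          refine ⟨L', hL'1.trans hL1, hL'2, ⟨fun p => if p.length % m = i then c' p else c p, ?_⟩,
            not_le.1 hcase⟩
          intro x hx n hn
          show x n = if (rp x n).length % m = i then c' (rp x n) else c (rp x n)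
          rw [rp_length]
          by_cases hni : n % m = i
          · rw [if_pos hni]; exact hc' x hx n hni
          · rw [if_neg hni]; exact hc x (hL'1 hx) n (by omega)
  rcases key m le_rfl with h | ⟨L, _, _, ⟨c, hc⟩, hL3⟩
  · exact h
  · exfalso
    have hsub : L.Subsingleton := by
      intro x hx y hy
      have : ∀ n, rp x n = rp y n := by
        intro n
        induction n with
        | zero => rfl
        | succ n ih =>
          rw [rp_succ, rp_succ, hc x hx n (Nat.mod_lt _ hm), hc y hy n (Nat.mod_lt _ hm), ih]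
      funext n
      exact (rp_eq_rp.1 (this (n + 1))) n (by omega)
    rw [dimH_subsingleton hsub] at hL3
    exact absurd hL3 (by simp)

theorem exists_exact {K : Set Seq} (hK : IsClosed K) {δ : ℝ≥0} (hδ : 1 / 2 ≤ δ)
    (hd : (δ : ℝ≥0∞) < dimH K) : ∃ V ⊆ K, dimH V = δ := by
  have h : ∀ m : ℕ, ∃ V ⊆ K, ((δ - 1 / (m + 3 : ℕ) : ℝ≥0) : ℝ≥0∞) ≤ dimH V ∧ dimH V ≤ δ := by
    intro m
    have h3 : (1 / ((m + 3 : ℕ) : ℝ≥0)) ≤ 1 / 3 := by
      apply one_div_le_one_div_of_le (by norm_num)
      push_cast
      exact le_add_self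
    have h4 : (1 / ((m + 3 : ℕ) : ℝ≥0)) < δ := by
      refine lt_of_le_of_lt h3 (lt_of_lt_of_le ?_ hδ)
      rw [← NNReal.coe_lt_coe]
      push_cast
      norm_num
    apply intermediate hK (m := m + 3) (by omega) (tsub_pos_of_lt h4) _ hd
    rw [NNReal.coe_sub h4.le]
    push_cast
    ring
  choose V hV1 hV2 hV3 using h
  refine ⟨⋃ m, V m, iUnion_subset hV1, ?_⟩
  rw [dimH_iUnion]
  apply le_antisymm
  · exact iSup_le hV3
  · apply le_of_forall_lt
    intro a ha
    lift a to ℝ≥0 using ha.ne_top
    have ha' : a < δ := by exact_mod_cast ha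
    obtain ⟨m, hm⟩ := exists_nat_one_div_lt (K := ℝ) (ε := (δ : ℝ) - a) (by
      have : (a : ℝ) < δ := by exact_mod_cast ha'
      linarith)
    refine lt_of_lt_of_le ?_ ((hV2 m).trans (le_iSup (fun m => dimH (V m)) m))
    rw [ENNReal.coe_lt_coe, lt_tsub_iff_right, ← NNReal.coe_lt_coe]
    push_cast
    have h5 : (1 : ℝ) / (m + 3) ≤ 1 / (m + 1) := by
      apply one_div_le_one_div_of_le (by positivity)
      linarith
    linarith

end Pool.Agent.TreeGame200
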